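import Pool.Agent.Helper89K9.MC.Stm

/-!
# Project MC: the leaf GOOD
-/

set_option autoImplicit false

namespace Pool.Agent.Helper41K9.MC

open Finset
open Pool.Agent.H699R2.OMV (Vec Mat)
open Pool.Agent.Helper89K9.MC

lemma sum_wt (n : ℕ) : ∑ z : Vec n, (16 : ℕ) ^ (n - wt z) = 17 ^ n := by
  have h1 : ∀ z : Vec n, (16 : ℕ) ^ (n - wt z) = ∏ j, (if z j ≠ 0 then 1 else 16) := by
    intro z
    rw [Finset.prod_ite]
    simp only [Finset.prod_const, one_pow, one_mul]
    congr 1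
    have h2 := Finset.card_filter_add_card_filter_not (s := (univ : Finset (Fin n)))
      (fun j => z j ≠ 0)
    rw [Finset.card_univ, Fintype.card_fin] at h2
    unfold wt
    omega
  simp only [h1]
  have h3 : ∑ z : Fin n → ZMod 2, ∏ j, (if z j ≠ 0 then (1 : ℕ) else 16) =
      ∏ _j : Fin n, ∑ a : ZMod 2, (if a ≠ 0 then (1 : ℕ) else 16) := by
    rw [Finset.prod_univ_sum, Fintype.piFinset_univ]
  rw [h3]
  have h4 : ∑ a : ZMod 2, (if a ≠ 0 then (1 : ℕ) else 16) = 17 := by decide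
  rw [h4]
  simp

/-- few vectors of small weight -/
lemma light (n : ℕ) : (univ.filter fun z : Vec n => 16 * wt z < n).card ^ 8 ≤ 2 ^ (3 * n) := by
  set N := (univ.filter fun z : Vec n => 16 * wt z < n).card with hN
  have h1 : N * 16 ^ (n - n / 16) ≤ 17 ^ n := by
    rw [← sum_wt n]
    calc N * 16 ^ (n - n / 16) = ∑ z ∈ univ.filter (fun z : Vec n => 16 * wt z < n),
          16 ^ (n - n / 16) := by rw [Finset.sum_const, smul_eq_mul]
      _ ≤ ∑ z ∈ univ.filter (fun z : Vec n => 16 * wt z < n), (16 : ℕ) ^ (n - wt z) := by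
          apply Finset.sum_le_sum
          intro z hz
          rw [Finset.mem_filter] at hz
          apply Nat.pow_le_pow_right (by norm_num)
          have := hz.2
          omega
      _ ≤ ∑ z : Vec n, (16 : ℕ) ^ (n - wt z) :=
          Finset.sum_le_sum_of_subset (Finset.filter_subset _ _)
  have h2 : (N * 16 ^ (n - n / 16)) ^ 8 ≤ 2 ^ (33 * n) := by
    calc (N * 16 ^ (n - n / 16)) ^ 8 ≤ (17 ^ n) ^ 8 := Nat.pow_le_pow_left h1 8
      _ = (17 ^ 8) ^ n := by rw [← pow_mul, ← pow_mul, mul_comm]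
      _ ≤ (2 ^ 33) ^ n := Nat.pow_le_pow_left (by norm_num) n
      _ = 2 ^ (33 * n) := by rw [← pow_mul]
  have h3 : (16 : ℕ) ^ (n - n / 16) = 2 ^ (4 * (n - n / 16)) := by
    rw [show (16 : ℕ) = 2 ^ 4 by norm_num, ← pow_mul]
  rw [h3, mul_pow, ← pow_mul] at h2
  have h4 : (2 : ℕ) ^ (33 * n) ≤ 2 ^ (3 * n) * 2 ^ (4 * (n - n / 16) * 8) := by
    rw [← pow_add]
    apply Nat.pow_le_pow_right (by norm_num)
    omega
  exact Nat.le_of_mul_le_mul_right (h2.trans h4) (by positivity)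

lemma n_pow (n : ℕ) (hn : 256 ≤ n) : n ^ 8 ≤ 2 ^ n := by
  induction n, hn using Nat.le_induction with
  | base => norm_num
  | succ n hn ih =>
    have h1 : (n + 1) ^ 8 ≤ 2 * n ^ 8 := by
      have h2 : 256 * (n + 1) ≤ 257 * n := by omega
      have h3 : (256 * (n + 1)) ^ 8 ≤ (257 * n) ^ 8 := Nat.pow_le_pow_left h2 8
      rw [mul_pow, mul_pow] at h3
      have h4 : (257 : ℕ) ^ 8 ≤ 256 ^ 8 * 2 := by norm_num
      have h5 : 256 ^ 8 * (n + 1) ^ 8 ≤ 256 ^ 8 * (2 * n ^ 8) := by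
        calc 256 ^ 8 * (n + 1) ^ 8 ≤ 257 ^ 8 * n ^ 8 := h3
          _ ≤ (256 ^ 8 * 2) * n ^ 8 := Nat.mul_le_mul_right _ h4
          _ = 256 ^ 8 * (2 * n ^ 8) := by ring
      exact Nat.le_of_mul_le_mul_left h5 (by positivity)
    calc (n + 1) ^ 8 ≤ 2 * n ^ 8 := h1
      _ ≤ 2 * 2 ^ n := Nat.mul_le_mul_left _ ih
      _ = 2 ^ (n + 1) := by ring

theorem good : S_GOOD := by
  classical
  intro n B h hn hh
  set N := (univ.filter fun z : Vec n => 16 * wt z < n).card with hN
  have hsub : (univ.filter fun v : Vec n => ¬ Good B h v) ⊆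
      (univ : Finset (Fin n × (Fin h.length → ZMod 2))).biUnion (fun rc =>
        univ.filter fun v : Vec n =>
          16 * wt ((↑(B rc.1)⁻¹ : Mat n).mulVec (v + ∑ i, rc.2 i • h.get i)) < n) := by
    intro v hv
    rw [Finset.mem_filter] at hv
    have h1 := hv.2
    unfold Good at h1
    push Not at h1
    obtain ⟨r, c, h2⟩ := h1
    rw [Finset.mem_biUnion]
    refine ⟨(r, c), Finset.mem_univ _, ?_⟩
    rw [Finset.mem_filter]
    exact ⟨Finset.mem_univ _, h2⟩
  have hone : ∀ rc : Fin n × (Fin h.length → ZMod 2),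
      (univ.filter fun v : Vec n =>
          16 * wt ((↑(B rc.1)⁻¹ : Mat n).mulVec (v + ∑ i, rc.2 i • h.get i)) < n).card ≤ N := by
    intro rc
    rw [hN]
    apply Finset.card_le_card_of_injOn
      (fun v => (↑(B rc.1)⁻¹ : Mat n).mulVec (v + ∑ i, rc.2 i • h.get i))
    · intro v hv
      simp only [Finset.coe_filter, Finset.mem_univ, true_and, Set.mem_ofPred_eq] at hv ⊢
      exact hv
    · intro v _ v' _ hvv
      have h1 := congrArg (fun u => (B rc.1 : Mat n).mulVec u) hvv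
      simp only [Matrix.mulVec_mulVec, Units.mul_inv, Matrix.one_mulVec] at h1
      exact add_right_cancel h1
  have hcard : (univ.filter fun v : Vec n => ¬ Good B h v).card ≤ n * 2 ^ h.length * N := by
    calc _ ≤ _ := Finset.card_le_card hsub
      _ ≤ ∑ rc : Fin n × (Fin h.length → ZMod 2), _ := Finset.card_biUnion_le
      _ ≤ ∑ _rc : Fin n × (Fin h.length → ZMod 2), N := Finset.sum_le_sum (fun rc _ => hone rc)
      _ = n * 2 ^ h.length * N := by
        rw [Finset.sum_const, Finset.card_univ, Fintype.card_prod, Fintype.card_fun, ZMod.card,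
          Fintype.card_fin, Fintype.card_fin, smul_eq_mul]
  have h8 : (n * 2 ^ h.length * N * 2 ^ (n / 4)) ^ 8 ≤ (2 ^ n) ^ 8 := by
    calc (n * 2 ^ h.length * N * 2 ^ (n / 4)) ^ 8 =
          n ^ 8 * 2 ^ (8 * h.length) * N ^ 8 * 2 ^ (8 * (n / 4)) := by
          rw [mul_pow, mul_pow, mul_pow, ← pow_mul, ← pow_mul, mul_comm h.length 8,
            mul_comm (n / 4) 8]
      _ ≤ 2 ^ n * 2 ^ (8 * h.length) * 2 ^ (3 * n) * 2 ^ (8 * (n / 4)) := by
          apply Nat.mul_le_mul_right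
          apply Nat.mul_le_mul _ (light n)
          apply Nat.mul_le_mul_right
          exact n_pow n hn
      _ = 2 ^ (n + 8 * h.length + 3 * n + 8 * (n / 4)) := by
          rw [← pow_add, ← pow_add, ← pow_add]
      _ ≤ 2 ^ (8 * n) := by
          apply Nat.pow_le_pow_right (by norm_num)
          omega
      _ = (2 ^ n) ^ 8 := by rw [← pow_mul, mul_comm]
  have h9 : n * 2 ^ h.length * N * 2 ^ (n / 4) ≤ 2 ^ n :=
    (Nat.pow_le_pow_iff_left (by norm_num)).mp h8
  exact (Nat.mul_le_mul_right _ hcard).trans h9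

end Pool.Agent.Helper41K9.MC
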