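import Pool.Agent.Helper89K9.MC.Stm

/-!
# Project MC: the leaf SUCC
-/

set_option autoImplicit false

namespace Pool.Agent.Helper41K9.MC

open Finset
open H746R3.Inv (LD)
open Pool.Agent.TH163.AC2 (toM gm gm_eq matEquiv)
open Pool.Agent.H699R2.OMV (Prog Vec Mat)
open Pool.Agent.Helper89K9.MC

lemma norm_sgn {n : ℕ} (S : Finset (Fin n)) (z : Vec n) : ‖sgn S z‖ = 1 := by
  unfold sgn
  rw [norm_prod]
  apply Finset.prod_eq_one
  intro r _
  split_ifs <;> simp

lemma sgn_orth {n : ℕ} (a b : Vec n) :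
    ∑ S : Finset (Fin n), sgn S a * sgn S b = if a = b then (2 : ℂ) ^ n else 0 := by
  have h1 : ∀ S : Finset (Fin n), sgn S a * sgn S b =
      ∏ r ∈ S, ((if a r = 0 then (1 : ℂ) else -1) * (if b r = 0 then (1 : ℂ) else -1)) := by
    intro S
    unfold sgn
    rw [Finset.prod_mul_distrib]
  simp only [h1]
  have h2 := Finset.prod_one_add (s := (univ : Finset (Fin n)))
    (f := fun r => (if a r = 0 then (1 : ℂ) else -1) * (if b r = 0 then (1 : ℂ) else -1))
  rw [Finset.powerset_univ] at h2
  rw [← h2]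
  by_cases hab : a = b
  · rw [if_pos hab, hab]
    have h3 : ∀ r ∈ (univ : Finset (Fin n)), (1 : ℂ) + (if b r = 0 then (1 : ℂ) else -1) *
        (if b r = 0 then (1 : ℂ) else -1) = 2 := by
      intro r _
      split_ifs <;> norm_num
    rw [Finset.prod_congr rfl h3]
    simp
  · rw [if_neg hab]
    obtain ⟨r, hr⟩ : ∃ r, a r ≠ b r := by
      by_contra hc
      push Not at hc
      exact hab (funext hc)
    apply Finset.prod_eq_zero (Finset.mem_univ r)
    have h4 : ∀ x y : ZMod 2, x ≠ y → (x = 0 ∧ y ≠ 0) ∨ (x ≠ 0 ∧ y = 0) := by decide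
    rcases h4 _ _ hr with ⟨h5, h6⟩ | ⟨h5, h6⟩
    · rw [if_pos h5, if_neg h6]
      norm_num
    · rw [if_neg h5, if_pos h6]
      norm_num

theorem succ : S_TREE → S_HIST → S_TAIL → S_SUCC := by
  classical
  intro hTree hHist hTail p _ n w A G B h v hgood D s τ b hb0 hb1 hcor m T hm
  set X := Fin n × Fin n → Bool with hX
  set m' : X → A → Fin w → Bool := fun x => m (toM G B x) with hm'
  set hy : X → List (Vec n) := fun x => h.map (toM G B x).mulVec with hhy
  set Y : Finset (List (Vec n)) :=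
    (univ : Finset (Fin h.length → Vec n)).image List.ofFn with hY
  have hmemY : ∀ x, hy x ∈ Y := by
    intro x
    rw [hY, Finset.mem_image]
    refine ⟨fun i => (toM G B x).mulVec (h.get i), Finset.mem_univ _, ?_⟩
    have h1 : h.map (toM G B x).mulVec = (List.ofFn h.get).map (toM G B x).mulVec := by
      rw [List.ofFn_get]
    show _ = h.map (toM G B x).mulVec
    rw [h1, List.map_ofFn]
    rfl
  have hYcard : (Y.card : ℝ) ≤ 2 ^ (n * h.length) := by
    have h1 : Y.card ≤ 2 ^ (n * h.length) := by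
      calc Y.card ≤ (univ : Finset (Fin h.length → Vec n)).card := Finset.card_image_le
        _ = 2 ^ (n * h.length) := by
          rw [Finset.card_univ, Fintype.card_fun, Fintype.card_fun, ZMod.card, Fintype.card_fin,
            Fintype.card_fin, pow_mul]
    exact_mod_cast h1
  have hXcard : (Fintype.card X : ℝ) = 2 ^ (n * n) := by
    have h1 : Fintype.card (Fin n × Fin n → Bool) = 2 ^ (n * n) := by
      rw [Fintype.card_fun, Fintype.card_bool, Fintype.card_prod, Fintype.card_fin]
    show ((Fintype.card (Fin n × Fin n → Bool) : ℕ) : ℝ) = _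
    rw [h1]
    push_cast
    rfl
  -- the correlations
  set F : Finset (Fin n) → ℂ := fun S => ∑ y ∈ Y, ∑ x : X,
    (if ((T y).addrs (m' x)).length ≤ τ then
      (if hy x = y then sgn S (gm B x v) else 0) *
        sgn S ((G : Mat n).mulVec ((T y).out (m' x))) else 0) with hF
  have hF1 : ∀ S, F S = ∑ x : X, (if ((T (hy x)).addrs (m' x)).length ≤ τ then
      sgn S (gm B x v) * sgn S ((G : Mat n).mulVec ((T (hy x)).out (m' x))) else 0) := by
    intro S
    simp only [hF]
    rw [Finset.sum_comm]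
    apply Finset.sum_congr rfl
    intro x _
    rw [Finset.sum_eq_single (hy x)]
    · rw [if_pos rfl]
    · intro y _ hyx
      rw [if_neg (Ne.symm hyx)]
      simp
    · intro hh
      exact absurd (hmemY x) hh
  have hF2 : ∀ S, ‖F S‖ ≤ 2 ^ (n * n) := by
    intro S
    rw [hF1 S]
    calc _ ≤ ∑ x : X, ‖(if ((T (hy x)).addrs (m' x)).length ≤ τ then
        sgn S (gm B x v) * sgn S ((G : Mat n).mulVec ((T (hy x)).out (m' x))) else 0)‖ :=
          norm_sum_le _ _
      _ ≤ ∑ _x : X, (1 : ℝ) := by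
        apply Finset.sum_le_sum
        intro x _
        split_ifs
        · rw [norm_mul, norm_sgn, norm_sgn, one_mul]
        · simp
      _ = 2 ^ (n * n) := by
        rw [Finset.sum_const, Finset.card_univ, nsmul_eq_mul, mul_one, hXcard]
  have hF3 : ∀ S : Finset (Fin n), ¬ 4 * S.card < n →
      ‖F S‖ ≤ 2 ^ (n * h.length) * (((p : ℝ) ^ s) ^ τ * (2 ^ (n * n) * b ^ (n * n / 64))) := by
    intro S hS
    have h1 : ∀ y ∈ Y, ‖∑ x : X, (if ((T y).addrs (m' x)).length ≤ τ then
      (if hy x = y then sgn S (gm B x v) else 0) *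
        sgn S ((G : Mat n).mulVec ((T y).out (m' x))) else 0)‖ ≤
        ((p : ℝ) ^ s) ^ τ * (2 ^ (n * n) * b ^ (n * n / 64)) := by
      intro y _
      apply hTree p X A (Fin w → Bool) (Vec n) (LD (ZMod p) (Fin n × Fin n) D) s m' hm
        (fun o => sgn S ((G : Mat n).mulVec o)) (fun o => (norm_sgn _ _).le)
        (2 ^ (n * n) * b ^ (n * n / 64)) (T y) τ
        (fun x => if hy x = y then sgn S (gm B x v) else 0)
      intro Q hQ
      apply hHist p n G B h v hgood S y D b hb0 hb1 hcor (n * n / 64) _ Q hQ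
      have h2 : n ≤ 4 * S.card := not_lt.mp hS
      have h3 : n * n ≤ n * (4 * S.card) := Nat.mul_le_mul_left n h2
      have h4 : n * (4 * S.card) = 4 * (n * S.card) := by ring
      omega
    calc ‖F S‖ ≤ ∑ y ∈ Y, ‖∑ x : X, (if ((T y).addrs (m' x)).length ≤ τ then
      (if hy x = y then sgn S (gm B x v) else 0) *
        sgn S ((G : Mat n).mulVec ((T y).out (m' x))) else 0)‖ := norm_sum_le _ _
      _ ≤ ∑ _y ∈ Y, ((p : ℝ) ^ s) ^ τ * (2 ^ (n * n) * b ^ (n * n / 64)) :=
        Finset.sum_le_sum h1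
      _ = Y.card * (((p : ℝ) ^ s) ^ τ * (2 ^ (n * n) * b ^ (n * n / 64))) := by
        rw [Finset.sum_const, nsmul_eq_mul]
      _ ≤ _ := by
        apply mul_le_mul_of_nonneg_right hYcard
        positivity
  -- the count
  set C := (univ.filter fun M : Mat n => (T (h.map M.mulVec)).out (m M) = M.mulVec v ∧
      ((T (h.map M.mulVec)).addrs (m M)).length ≤ τ).card with hC
  have hC1 : (C : ℂ) = ∑ x : X, (if (T (hy x)).out (m' x) = (toM G B x).mulVec v ∧
      ((T (hy x)).addrs (m' x)).length ≤ τ then (1 : ℂ) else 0) := by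
    have h1 : (C : ℂ) = ∑ M : Mat n, (if (T (h.map M.mulVec)).out (m M) = M.mulVec v ∧
      ((T (h.map M.mulVec)).addrs (m M)).length ≤ τ then (1 : ℂ) else 0) := by
      rw [hC, Finset.sum_boole]
    rw [h1]
    exact (Equiv.sum_comp (matEquiv G B) (fun M : Mat n =>
      (if (T (h.map M.mulVec)).out (m M) = M.mulVec v ∧
      ((T (h.map M.mulVec)).addrs (m M)).length ≤ τ then (1 : ℂ) else 0))).symm
  have hsum : ∑ S, F S = 2 ^ n * (C : ℂ) := by
    simp only [hF1]
    rw [Finset.sum_comm, hC1, Finset.mul_sum]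
    apply Finset.sum_congr rfl
    intro x _
    by_cases hl : ((T (hy x)).addrs (m' x)).length ≤ τ
    · simp only [if_pos hl]
      rw [sgn_orth]
      by_cases ho : (T (hy x)).out (m' x) = (toM G B x).mulVec v
      · rw [if_pos, if_pos ⟨ho, hl⟩, mul_one]
        rw [gm_eq G B x v, ho]
      · rw [if_neg, if_neg, mul_zero]
        · intro hc
          exact ho hc.1
        · intro hc
          apply ho
          rw [gm_eq G B x v] at hc
          have h2 := congrArg (fun u => (↑G⁻¹ : Mat n).mulVec u) hc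
          have h3 : ∀ u : Vec n, (↑G⁻¹ : Mat n).mulVec ((G : Mat n).mulVec u) = u := by
            intro u
            rw [Matrix.mulVec_mulVec, Units.inv_mul, Matrix.one_mulVec]
          simp only [h3] at h2
          exact h2.symm
    · simp only [if_neg hl]
      rw [if_neg]
      · simp
      · intro hc
        exact hl hc.2
  have hmain : (2 : ℝ) ^ n * C ≤ ∑ S, ‖F S‖ := by
    have h1 : ‖(2 : ℂ) ^ n * (C : ℂ)‖ = 2 ^ n * C := by
      rw [norm_mul, norm_pow, Complex.norm_natCast]
      norm_num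
    rw [← h1, ← hsum]
    exact norm_sum_le _ _
  set R : ℝ := 2 ^ (n * h.length) * (((p : ℝ) ^ s) ^ τ * (2 ^ (n * n) * b ^ (n * n / 64)))
    with hR
  have hR0 : 0 ≤ R := by
    rw [hR]
    positivity
  have hsplit : ∑ S, ‖F S‖ ≤
      ((univ.filter fun S : Finset (Fin n) => 4 * S.card < n).card : ℝ) * 2 ^ (n * n) +
        2 ^ n * R := by
    rw [← Finset.sum_filter_add_sum_filter_not univ (fun S : Finset (Fin n) => 4 * S.card < n)]
    apply add_le_add
    · calc _ ≤ ∑ _S ∈ univ.filter (fun S : Finset (Fin n) => 4 * S.card < n),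
            (2 : ℝ) ^ (n * n) := Finset.sum_le_sum (fun S _ => hF2 S)
        _ = _ := by rw [Finset.sum_const, nsmul_eq_mul]
    · calc _ ≤ ∑ _S ∈ univ.filter (fun S : Finset (Fin n) => ¬ 4 * S.card < n), R :=
            Finset.sum_le_sum (fun S hS => hF3 S (Finset.mem_filter.mp hS).2)
        _ = ((univ.filter fun S : Finset (Fin n) => ¬ 4 * S.card < n).card : ℝ) * R := by
            rw [Finset.sum_const, nsmul_eq_mul]
        _ ≤ 2 ^ n * R := by
            apply mul_le_mul_of_nonneg_right _ hR0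
            have h1 : (univ.filter fun S : Finset (Fin n) => ¬ 4 * S.card < n).card ≤ 2 ^ n := by
              calc _ ≤ (univ : Finset (Finset (Fin n))).card := Finset.card_filter_le _ _
                _ = 2 ^ n := by
                  rw [Finset.card_univ, Fintype.card_finset, Fintype.card_fin]
            exact_mod_cast h1
  have htail : ((univ.filter fun S : Finset (Fin n) => 4 * S.card < n).card : ℝ) ≤
      2 ^ n * (1 / 2 ^ (n / 8)) := by
    have h1 := hTail n
    have h2 : ((univ.filter fun S : Finset (Fin n) => 4 * S.card < n).card : ℝ) * 2 ^ (n / 8) ≤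
        2 ^ n := by exact_mod_cast h1
    rw [mul_one_div, le_div_iff₀ (by positivity)]
    exact h2
  have hfin : (2 : ℝ) ^ n * C ≤ 2 ^ n * (2 ^ (n * n) * (1 / 2 ^ (n / 8) +
        2 ^ (n * h.length) * ((p : ℝ) ^ s) ^ τ * b ^ (n * n / 64))) := by
    calc (2 : ℝ) ^ n * C ≤ _ := hmain.trans hsplit
      _ ≤ 2 ^ n * (1 / 2 ^ (n / 8)) * 2 ^ (n * n) + 2 ^ n * R := by
          have : (0 : ℝ) ≤ 2 ^ (n * n) := by positivity
          nlinarith [mul_le_mul_of_nonneg_right htail this]
      _ = _ := by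
          rw [hR]
          ring
  exact le_of_mul_le_mul_left hfin (by positivity)

end Pool.Agent.Helper41K9.MC
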